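import Pool.Agent.Helper63.WO.Defs

/-!
# Windows off zero: couplings of consecutive points
-/

set_option autoImplicit false

open Finset

namespace Pool.Agent.Helper63.WO

private def adj63 (i j : ℕ) : Prop := i + 1 = j ∨ j + 1 = i

private lemma pair_sum63 (F : ℕ → ℕ → ℝ) (h0 : ∀ i j, 0 ≤ F i j) (hs : ∀ i j, F i j = F j i) (m : ℕ) :
    ∑ i ∈ range m, 2 * F i (i + 1) ≤ ∑ i ∈ range (m + 1), ∑ j ∈ range (m + 1), F i j := by
  induction m with
  | zero =>
    rw [Finset.sum_range_zero]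
    exact sum_nonneg fun i _ => sum_nonneg fun j _ => h0 i j
  | succ m ih =>
    rw [Finset.sum_range_succ _ m]
    rw [Finset.sum_range_succ (fun i => ∑ j ∈ range (m + 1 + 1), F i j) (m + 1)]
    have e1 : ∀ i, ∑ j ∈ range (m + 1 + 1), F i j = ∑ j ∈ range (m + 1), F i j + F i (m + 1) := fun i =>
      Finset.sum_range_succ _ _
    simp only [e1, sum_add_distrib]
    have h1 : F m (m + 1) ≤ ∑ i ∈ range (m + 1), F i (m + 1) := by
      rw [Finset.sum_range_succ]
      have : 0 ≤ ∑ i ∈ range m, F i (m + 1) := sum_nonneg fun i _ => h0 _ _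
      linarith
    have h2 : F m (m + 1) ≤ ∑ j ∈ range (m + 1), F (m + 1) j := by
      rw [Finset.sum_range_succ, hs (m + 1) m]
      have : 0 ≤ ∑ j ∈ range m, F (m + 1) j := sum_nonneg fun i _ => h0 _ _
      linarith
    have h3 := h0 (m + 1) (m + 1)
    linarith

/-- the points of `V` in increasing order, and the coupling of consecutive points -/
theorem chain (V : Finset ℝ) {n : ℕ} (hn : V.card = n + 1) {f : ℝ → ℝ} (hf : ∀ x, f (-x) = f x) :
    ∃ (v : ℕ → ℝ) (c : ℝ → ℝ → ℝ), (∀ i < n, v i < v (i + 1)) ∧ (∀ i ≤ n, v i ∈ V) ∧ (∀ u w, c u w = c w u) ∧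
      (∀ u, c u u = 0) ∧ (∀ u w, c u w ≠ 0 → u ∈ V ∧ w ∈ V) ∧ (∀ u ∈ V, ∑ w ∈ V, |c u w| ≤ 1) ∧
      ∑ i ∈ range n, gg (f (v (i + 1) - v i)) ≤ ∑ u ∈ V, ∑ w ∈ V, (2 * f (u - w) * c u w - c u w ^ 2) := by
  classical
  set e := V.orderEmbOfFin hn with he
  obtain ⟨v, hv⟩ : ∃ v : ℕ → ℝ, ∀ i : Fin (n + 1), v i = e i :=
    ⟨fun i => if h : i < n + 1 then e ⟨i, h⟩ else 0, fun i => by
      show (if h : (i : ℕ) < n + 1 then e ⟨i, h⟩ else 0) = e i
      rw [dif_pos i.2]⟩
  have hmono : ∀ i j, i < j → j < n + 1 → v i < v j := by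
    intro i j hij hj
    have h1 := hv ⟨i, hij.trans hj⟩
    have h2 := hv ⟨j, hj⟩
    simp only at h1 h2
    rw [h1, h2]
    exact e.strictMono (Fin.mk_lt_mk.2 hij)
  have hinj : Set.InjOn v (range (n + 1) : Finset ℕ) := by
    intro i hi j hj hij
    rw [coe_range, Set.mem_Iio] at hi hj
    rcases lt_trichotomy i j with h | h | h
    · exact absurd hij (hmono i j h hj).ne
    · exact h
    · exact absurd hij (hmono j i h hi).ne'
  have himg : V = (range (n + 1)).image v := by
    ext x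
    rw [mem_image]
    constructor
    · intro hx
      have : x ∈ Set.range e := by
        rw [he, Finset.range_orderEmbOfFin]
        exact hx
      obtain ⟨i, hi⟩ := this
      exact ⟨i, mem_range.2 i.2, (hv i).trans hi⟩
    · rintro ⟨i, hi, rfl⟩
      have h1 := hv ⟨i, mem_range.1 hi⟩
      simp only at h1
      rw [h1]
      exact Finset.orderEmbOfFin_mem _ _ _
  have hmem : ∀ i, i < n + 1 → v i ∈ V := by
    intro i hi
    rw [himg]
    exact mem_image_of_mem _ (mem_range.2 hi)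
  have hsum : ∀ F : ℝ → ℝ, ∑ x ∈ V, F x = ∑ i ∈ range (n + 1), F (v i) := by
    intro F
    conv_lhs => rw [himg]
    exact Finset.sum_image hinj
  set idx : ℝ → ℕ := Function.invFunOn v (range (n + 1) : Finset ℕ) with hidx
  have hidx1 : ∀ i, i < n + 1 → idx (v i) = i := fun i hi => hinj.leftInvOn_invFunOn (by simpa using hi)
  have hsymadj : ∀ i j, adj63 i j ↔ adj63 j i := by
    intro i j
    unfold adj63
    tauto
  have hcs : ∀ u w, (u ∈ V ∧ w ∈ V ∧ adj63 (idx u) (idx w)) ↔ (w ∈ V ∧ u ∈ V ∧ adj63 (idx w) (idx u)) := by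
    intro u w
    rw [hsymadj (idx w) (idx u)]
    tauto
  obtain ⟨c, hc⟩ : ∃ c : ℝ → ℝ → ℝ, ∀ u w, c u w = if u ∈ V ∧ w ∈ V ∧ adj63 (idx u) (idx w) then tt (f (u - w)) else 0 :=
    ⟨_, fun _ _ => rfl⟩
  refine ⟨v, c, fun i hi => hmono _ _ (Nat.lt_succ_self i) (by omega), fun i hi => hmem i (by omega), fun u w => ?_, fun u => ?_,
    fun u w h => ?_, fun u hu => ?_, ?_⟩
  · rw [hc, hc, show f (u - w) = f (w - u) by rw [← hf]; congr 1; ring]
    by_cases h : u ∈ V ∧ w ∈ V ∧ adj63 (idx u) (idx w)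
    · rw [if_pos h, if_pos ((hcs u w).1 h)]
    · rw [if_neg h, if_neg (fun h' => h ((hcs u w).2 h'))]
  · rw [hc, if_neg]
    rintro ⟨-, -, h⟩
    unfold adj63 at h
    omega
  · rw [hc] at h
    by_cases h' : u ∈ V ∧ w ∈ V ∧ adj63 (idx u) (idx w)
    · exact ⟨h'.1, h'.2.1⟩
    · rw [if_neg h'] at h
      exact absurd rfl h
  · have h1 : ∀ w ∈ V, |c u w| ≤ if adj63 (idx u) (idx w) then (1 / 2 : ℝ) else 0 := by
      intro w hw
      rw [hc]
      by_cases h : adj63 (idx u) (idx w)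
      · rw [if_pos ⟨hu, hw, h⟩, if_pos h]
        exact abs_tt _
      · rw [if_neg (fun h' => h h'.2.2), if_neg h, abs_zero]
    refine le_trans (sum_le_sum h1) ?_
    rw [← Finset.sum_filter, sum_const, nsmul_eq_mul]
    have h2 : (V.filter fun w => adj63 (idx u) (idx w)).card ≤ 2 := by
      have h3 : ((V.filter fun w => adj63 (idx u) (idx w)).image idx).card ≤ 2 := by
        refine le_trans (Finset.card_le_card (t := {idx u + 1, idx u - 1}) ?_) ?_
        · intro k hk
          rw [mem_image] at hk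
          obtain ⟨w, hw, rfl⟩ := hk
          have h4 := (mem_filter.1 hw).2
          unfold adj63 at h4
          simp only [mem_insert, mem_singleton]
          omega
        · exact Finset.card_le_two
      rwa [Finset.card_image_of_injOn] at h3
      intro x hx y hy hxy
      have hx' := (mem_filter.1 (Finset.mem_coe.1 hx)).1
      have hy' := (mem_filter.1 (Finset.mem_coe.1 hy)).1
      rw [himg, mem_image] at hx' hy'
      obtain ⟨i, hi, rfl⟩ := hx'
      obtain ⟨j, hj, rfl⟩ := hy'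
      rw [hidx1 i (mem_range.1 hi), hidx1 j (mem_range.1 hj)] at hxy
      rw [hxy]
    have h3 : ((V.filter fun w => adj63 (idx u) (idx w)).card : ℝ) ≤ 2 := by exact_mod_cast h2
    linarith
  · obtain ⟨F, hF⟩ : ∃ F : ℕ → ℕ → ℝ, ∀ i j, F i j = if adj63 i j then gg (f (v i - v j)) / 2 else 0 := ⟨_, fun _ _ => rfl⟩
    have hF0 : ∀ i j, 0 ≤ F i j := by
      intro i j
      rw [hF]
      split_ifs
      · have := gg_nonneg (f (v i - v j))
        linarith
      · exact le_rfl
    have hFs : ∀ i j, F i j = F j i := by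
      intro i j
      rw [hF, hF, show f (v i - v j) = f (v j - v i) by rw [← hf]; congr 1; ring]
      by_cases h : adj63 i j
      · rw [if_pos h, if_pos ((hsymadj i j).1 h)]
      · rw [if_neg h, if_neg (fun h' => h ((hsymadj i j).2 h'))]
    have e1 : ∑ u ∈ V, ∑ w ∈ V, (2 * f (u - w) * c u w - c u w ^ 2) = ∑ i ∈ range (n + 1), ∑ j ∈ range (n + 1), F i j := by
      rw [hsum]
      refine sum_congr rfl fun i hi => ?_
      rw [hsum]
      refine sum_congr rfl fun j hj => ?_
      rw [mem_range] at hi hj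
      rw [hc, hF, hidx1 i hi, hidx1 j hj]
      by_cases h : adj63 i j
      · rw [if_pos ⟨hmem i hi, hmem j hj, h⟩, if_pos h]
        unfold gg
        ring
      · rw [if_neg (fun h' => h h'.2.2), if_neg h]
        norm_num
    rw [e1]
    refine le_trans (le_of_eq ?_) (pair_sum63 F hF0 hFs n)
    refine sum_congr rfl fun i _ => ?_
    rw [hF, if_pos (show adj63 i (i + 1) from Or.inl rfl), show v i - v (i + 1) = -(v (i + 1) - v i) by ring, hf]
    ring

end Pool.Agent.Helper63.WO
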