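import Mathlib

/-!
# Windows off zero: the gain of a coupling

`gg f` is the maximum of `2 (2 f t - t ^ 2)` over `|t| ≤ 1 / 2`, attained at `t = tt f`.
-/

set_option autoImplicit false

namespace Pool.Agent.Helper63.WO

/-- the coupling -/
noncomputable def tt (f : ℝ) : ℝ := max (-(1 / 2)) (min (1 / 2) f)

/-- the gain -/
noncomputable def gg (f : ℝ) : ℝ := 2 * (2 * f * tt f - tt f ^ 2)

lemma abs_tt (f : ℝ) : |tt f| ≤ 1 / 2 := by
  unfold tt
  rw [abs_le]
  exact ⟨le_max_left _ _, max_le (by norm_num) (min_le_left _ _)⟩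

lemma gg_ge (f : ℝ) {t : ℝ} (ht : |t| ≤ 1 / 2) : 2 * (2 * f * t - t ^ 2) ≤ gg f := by
  have ht' := abs_le.1 ht
  have key : (t - tt f) * (t + tt f - 2 * f) ≥ 0 := by
    unfold tt
    rcases le_total f (-(1 / 2)) with h | h
    · have e : max (-(1 / 2)) (min (1 / 2) f) = -(1 / 2) := by
        rw [min_eq_right (by linarith), max_eq_left h]
      rw [e]
      exact mul_nonneg (by linarith) (by linarith)
    · rcases le_total f (1 / 2) with h' | h'
      · have e : max (-(1 / 2)) (min (1 / 2) f) = f := by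
          rw [min_eq_right h', max_eq_right h]
        rw [e]
        nlinarith [sq_nonneg (t - f)]
      · have e : max (-(1 / 2)) (min (1 / 2) f) = 1 / 2 := by
          rw [min_eq_left h', max_eq_right (by norm_num)]
        rw [e]
        exact mul_nonneg_of_nonpos_of_nonpos (by linarith) (by linarith)
  unfold gg
  nlinarith [key]

lemma gg_nonneg (f : ℝ) : 0 ≤ gg f := by
  have := gg_ge f (t := 0) (by norm_num)
  simpa using this

lemma gg_pos (f : ℝ) : 2 * f - 1 / 2 ≤ gg f := by
  have := gg_ge f (t := 1 / 2) (by norm_num)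
  linarith

lemma gg_sq {f : ℝ} (h : |f| ≤ 1 / 2) : 2 * f ^ 2 ≤ gg f := by
  have := gg_ge f (t := f) h
  nlinarith

lemma gg_lip (f f' : ℝ) : gg f' - 2 * |f - f'| ≤ gg f := by
  have h1 := gg_ge f (t := tt f') (abs_tt f')
  have h2 : |(f' - f) * tt f'| ≤ |f - f'| * (1 / 2) := by
    rw [abs_mul, abs_sub_comm]
    exact mul_le_mul_of_nonneg_left (abs_tt f') (abs_nonneg _)
  have h3 := (abs_le.1 h2).2
  have h4 : gg f' = 2 * (2 * f * tt f' - tt f' ^ 2) + 4 * ((f' - f) * tt f') := by
    unfold gg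
    ring
  linarith

end Pool.Agent.Helper63.WO
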