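import Pool.Agent.Helper63.WO.Window
import Pool.Agent.Helper96.WO.Num
import Pool.Agent.Helper65.RT.Num

/-!
# Windows off zero: the four statements
-/

set_option autoImplicit false

open Finset Filter Topology MeasureTheory

namespace Pool.Agent.Helper63.WO

open Pool.Agent.Helper57.LH Pool.Agent.Helper57.PC Pool.Agent.Helper57.Zeta
open Pool.Agent.Helper6.HM (lev Sc mem_Sc lev_inj)
open Pool.Agent.Helper66.RT
open Pool.Agent.Helper96.WO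

lemma PW_mono {T α β β' : ℝ} (h : β ≤ β') : ((PW T α β).card : ℝ) ≤ ((PW T α β').card : ℝ) := by
  have : PW T α β ⊆ PW T α β' := by
    intro q hq
    obtain ⟨h3, h4, h5⟩ := mem_PW.1 hq
    exact mem_PW.2 ⟨h3, h4, by linarith⟩
  exact_mod_cast card_le_card this

/-- length `3/2` -/
theorem fin_long : ∃ T₀ : ℝ, 1 < T₀ ∧ ∀ T : ℝ, T₀ ≤ T → ∀ α β : ℝ, 0 < α → α + 3 / 2 ≤ β → β ≤ 1 / 10000 * SN T →
    1 / 25 * (⌊(β - α) / (3 / 2)⌋ : ℝ) * SN T ≤ ((PW T α β).card : ℝ) := by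
  obtain ⟨T₀, hT₀, h⟩ := many (L := 3 / 2) (lam := 3 / 20) (mu := 12 / 25) (by norm_num) (by norm_num) (by norm_num)
    (fun d h0 h1 => (num_a h0.le h1).trans (by nlinarith)) (fun d h1 => num_b h1.le) (ε := 1 / 1000) (by norm_num)
  refine ⟨T₀, hT₀, fun T hT α β hα hβ hM => ?_⟩
  have hS := SN_pos (hT₀.trans_le hT)
  have hC := Pool.Agent.Helper65.RT.CMT_hi
  obtain ⟨x, hx⟩ : ∃ x, x = (β - α) / (3 / 2) := ⟨_, rfl⟩
  have hx0 : 0 ≤ x := by rw [hx]; apply div_nonneg <;> linarith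
  obtain ⟨k, hk⟩ : ∃ k : ℕ, k = ⌊x⌋₊ := ⟨_, rfl⟩
  have e1 : (⌊x⌋ : ℝ) = (k : ℝ) := by
    rw [hk, ← Int.natCast_floor_eq_floor hx0]
    simp
  have hkx : (k : ℝ) ≤ x := by rw [hk]; exact Nat.floor_le hx0
  have hkL : α + k * (3 / 2) ≤ β := by
    rw [hx, le_div_iff₀ (by norm_num)] at hkx
    linarith
  have h1 := h T hT α (1 / 10000) hα k (hkL.trans hM)
  rw [← hx, e1]
  refine (le_trans ?_ h1).trans (PW_mono hkL)
  have h2 : (1:ℝ) / 25 ≤ 2 - CMT - 1 / 1000 - (3 / 20 + 12 / 25) - 12 / 25 * (1 / 10000) := by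
    have : CMT ≤ 239 / 180 := hC
    linarith
  have h3 := mul_le_mul_of_nonneg_right h2 hS.le
  have h4 := mul_le_mul_of_nonneg_left h3 (Nat.cast_nonneg (α := ℝ) k)
  linarith

/-- length `7/5` -/
theorem fin_short : ∃ T₀ : ℝ, 1 < T₀ ∧ ∀ T : ℝ, T₀ ≤ T → ∀ α β : ℝ, 0 < α → α + 7 / 5 ≤ β → β ≤ 1 / 10000 * SN T →
    1 / 2800 * ((β - α) * SN T) ≤ ((PW T α β).card : ℝ) := by
  obtain ⟨T₀, hT₀, h⟩ := many (L := 7 / 5) (lam := 231 / 2000) (mu := 1111 / 2000) (by norm_num) (by norm_num) (by norm_num)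
    (fun d h0 h1 => (num_a h0.le (by linarith)).trans (by nlinarith)) (fun d h1 => num_c h1.le) (ε := 1 / 10000) (by norm_num)
  refine ⟨T₀, hT₀, fun T hT α β hα hβ hM => ?_⟩
  have hS := SN_pos (hT₀.trans_le hT)
  have hC := Pool.Agent.Helper65.RT.CMT_hi
  obtain ⟨x, hx⟩ : ∃ x, x = (β - α) / (7 / 5) := ⟨_, rfl⟩
  have hx1 : 1 ≤ x := by rw [hx, le_div_iff₀ (by norm_num)]; linarith
  obtain ⟨k, hk⟩ : ∃ k : ℕ, k = ⌊x⌋₊ := ⟨_, rfl⟩
  have hkx : (k : ℝ) ≤ x := by rw [hk]; exact Nat.floor_le (by linarith)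
  have hkL : α + k * (7 / 5) ≤ β := by
    rw [hx, le_div_iff₀ (by norm_num)] at hkx
    linarith
  have hk1 : 1 ≤ k := by
    rw [hk]
    exact Nat.le_floor (by push_cast; exact hx1)
  have hk2 : x / 2 ≤ k := by
    have h1 : x < k + 1 := by rw [hk]; exact Nat.lt_floor_add_one x
    have h2 : (1:ℝ) ≤ k := by exact_mod_cast hk1
    linarith
  have h1 := h T hT α (1 / 10000) hα k (hkL.trans hM)
  refine (le_trans ?_ h1).trans (PW_mono hkL)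
  have h2 : (1:ℝ) / 1000 ≤ 2 - CMT - 1 / 10000 - (231 / 2000 + 1111 / 2000) - 1111 / 2000 * (1 / 10000) := by
    have : CMT ≤ 239 / 180 := hC
    linarith
  have h3 := mul_le_mul_of_nonneg_right h2 hS.le
  have h4 := mul_le_mul_of_nonneg_left h3 (Nat.cast_nonneg (α := ℝ) k)
  refine le_trans ?_ h4
  have h5 : x / 2 * (1 / 1000 * SN T) ≤ k * (1 / 1000 * SN T) := mul_le_mul_of_nonneg_right hk2 (by positivity)
  refine le_trans (le_of_eq ?_) h5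
  rw [hx]
  ring

/-- the window `[7/12, 7/5)` -/
theorem fin_near : ∃ T₀ : ℝ, 1 < T₀ ∧ ∀ T : ℝ, T₀ ≤ T → 1 / 2000 * SN T ≤ ((PW T (7 / 12) (7 / 5)).card : ℝ) := by
  obtain ⟨T₀, hT₀, h⟩ := window_near (α := 7 / 12) (β := 7 / 5) (κ := 671 / 1000) (by norm_num)
    (fun d h0 h1 => num_d h0.le h1.le) (fun d h1 => num_e h1) (ε := 1 / 2000) (by norm_num)
  refine ⟨T₀, hT₀, fun T hT => (le_trans ?_ (h T hT))⟩
  have hS := SN_pos (hT₀.trans_le hT)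
  have hC : CMT ≤ 239 / 180 := Pool.Agent.Helper65.RT.CMT_hi
  refine mul_le_mul_of_nonneg_right ?_ hS.le
  linarith

/-- the window `[1/2, 3/2)` -/
theorem fin_unit : ∃ T₀ : ℝ, 1 < T₀ ∧ ∀ T : ℝ, T₀ ≤ T → 1 / 25 * SN T ≤ ((PW T (1 / 2) (3 / 2)).card : ℝ) := by
  obtain ⟨T₀, hT₀, h⟩ := window_near (α := 1 / 2) (β := 3 / 2) (κ := 63 / 100) (by norm_num)
    (fun d h0 h1 => num_f1 h0.le h1.le) (fun d h1 => num_f2 h1) (ε := 1 / 2000) (by norm_num)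
  refine ⟨T₀, hT₀, fun T hT => (le_trans ?_ (h T hT))⟩
  have hS := SN_pos (hT₀.trans_le hT)
  have hC : CMT ≤ 239 / 180 := Pool.Agent.Helper65.RT.CMT_hi
  refine mul_le_mul_of_nonneg_right ?_ hS.le
  linarith

end Pool.Agent.Helper63.WO
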