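import Pool.Agent.Helper66.RT.Cnt8
import Pool.Agent.Helper63.WO.Chain

/-!
# Windows off zero: removing zeros

If the zeros in `Y` (simple, on the line) have consecutive gaps with total loss at most `B`, then at least
`(2 - CMT - ε) SN T - B` simple zeros on the line are not in `Y`.
-/

set_option autoImplicit false

open Finset Filter Topology MeasureTheory

namespace Pool.Agent.Helper63.WO

open Pool.Agent.Helper57.LH Pool.Agent.Helper57.PC Pool.Agent.Helper57.Zeta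
open Pool.Agent.Helper57.FL (ff)
open Pool.Agent.Helper6.HM (lev one_le_mult Sc mem_Sc lev_inj)
open Pool.Agent.Helper99.HZ (hh)
open Pool.Agent.Helper66.RT

lemma near0 {p : ℝ → ℝ} {b : ℝ} (hp : Wt p b) : NearOK p b 0 0 0 := by
  intro y d hy hd
  have hy0 : y = 0 := by
    have := abs_nonneg y
    exact abs_eq_zero.1 (le_antisymm hy this)
  have hd0 : d = 0 := by
    rw [mul_zero] at hd
    have := abs_nonneg d
    exact abs_eq_zero.1 (le_antisymm hd this)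
  subst hy0 hd0
  rw [zero_mul]
  refine ⟨sq_nonneg _, ?_⟩
  refine setIntegral_nonneg measurableSet_Icc fun x _ => ?_
  simp only [mul_zero, Real.cosh_zero, Real.cos_zero, mul_one]
  exact mul_nonneg (hp.nn x) (by norm_num)

/-- the inequality for one weight -/
theorem ineq {T : ℝ} (hT : 1 < T) {p : ℝ → ℝ} {b : ℝ} (hp : Wt p b) {Y : Finset ℂ} (hY : Y ⊆ Sc T) :
    (Y.card = 0 → 2 * NT T - ((Sc T).card : ℝ) ≤ SN T * ∫ u, hh p u * ff T u) ∧
    ∀ n : ℕ, Y.card = n + 1 → ∃ v : ℕ → ℝ, (∀ i < n, v i < v (i + 1)) ∧ (∀ i ≤ n, ∃ ρ ∈ Y, v i = lev T ρ) ∧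
      2 * NT T - ((Sc T).card : ℝ) + ∑ i ∈ range n, gg (Gp p (v (i + 1) - v i)) ≤
        SN T * ∫ u, hh p u * ff T u := by
  classical
  have hz : ∀ c : ℝ → ℝ → ℝ, (∀ u v, c u v = c v u) → (∀ u, c u u = 0) →
      (∀ ρ ∈ Sc T, ∑ σ ∈ Sc T, |c (lev T ρ) (lev T σ)| ≤ 1) →
      2 * NT T - ((Sc T).card : ℝ) +
      ∑ ρ ∈ Sc T, ∑ σ ∈ Sc T, (2 * Gp p (lev T ρ - lev T σ) * c (lev T ρ) (lev T σ) - c (lev T ρ) (lev T σ) ^ 2) ≤
      SN T * ∫ u, hh p u * ff T u := by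
    intro c h1 h2 h3
    have h := zeros4 hT hp (Sc T) ∅ (a := 0) (κ := 0) (w := 0) (H := 0) (β := 0) le_rfl (by norm_num) (by norm_num)
      (near0 hp) (fun ρ h => h) (fun ρ h => absurd h (notMem_empty ρ)) (fun ρ h => Or.inl h)
      (fun ρ h => absurd h (notMem_empty ρ)) h1 h2 h3
    rw [card_empty, Nat.cast_zero, mul_zero, sub_zero] at h
    exact h
  refine ⟨fun _ => ?_, fun n hn => ?_⟩
  · have h := hz (fun _ _ => 0) (fun _ _ => rfl) (fun _ => rfl) (fun ρ _ => by simp)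
    simpa using h
  · have hinj : Set.InjOn (lev T) (Sc T : Set ℂ) := fun ρ hρ σ hσ h => lev_inj hT ρ hρ σ hσ h
    have hinjY : Set.InjOn (lev T) (Y : Set ℂ) := hinj.mono (by exact_mod_cast hY)
    obtain ⟨V, hV⟩ : ∃ V, V = Y.image (lev T) := ⟨_, rfl⟩
    have hVc : V.card = n + 1 := by
      rw [hV, card_image_of_injOn hinjY, hn]
    obtain ⟨v, c, v1, v2, c1, c2, c3, c4, c5⟩ := chain V hVc (Gp_even p)
    have hsumY : ∀ f : ℝ → ℝ, ∑ u ∈ V, f u = ∑ ρ ∈ Y, f (lev T ρ) := by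
      intro f
      rw [hV]
      exact sum_image hinjY
    have hmem : ∀ ρ ∈ Sc T, lev T ρ ∈ V → ρ ∈ Y := by
      intro ρ hρ h
      rw [hV, mem_image] at h
      obtain ⟨σ, hσ, h1⟩ := h
      have := lev_inj hT σ (hY hσ) ρ hρ h1
      exact this ▸ hσ
    have hsupp : ∀ ρ ∈ Sc T, ∀ σ ∈ Sc T, ¬ (ρ ∈ Y ∧ σ ∈ Y) → c (lev T ρ) (lev T σ) = 0 := by
      intro ρ hρ σ hσ h
      by_contra h1
      have h2 := c3 _ _ h1
      exact h ⟨hmem ρ hρ h2.1, hmem σ hσ h2.2⟩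
    have hsub : ∀ (ρ : ℂ), ρ ∈ Sc T → ∀ F : ℝ → ℝ, F 0 = 0 → ∑ σ ∈ Sc T, F (c (lev T ρ) (lev T σ)) =
        ∑ σ ∈ Y, F (c (lev T ρ) (lev T σ)) := by
      intro ρ hρ F hF
      symm
      refine sum_subset hY fun σ hσ hσY => ?_
      rw [hsupp ρ hρ σ hσ (fun h => hσY h.2), hF]
    refine ⟨v, v1, fun i hi => ?_, ?_⟩
    · have := v2 i hi
      rw [hV, mem_image] at this
      obtain ⟨ρ, hρ, h⟩ := this
      exact ⟨ρ, hρ, h.symm⟩
    · have h := hz c c1 c2 (by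
        intro ρ hρ
        rw [hsub ρ hρ (fun x => |x|) abs_zero]
        by_cases hρY : ρ ∈ Y
        · have h1 := c4 (lev T ρ) (by rw [hV]; exact mem_image_of_mem _ hρY)
          rwa [hsumY] at h1
        · have h2 : ∑ σ ∈ Y, |c (lev T ρ) (lev T σ)| = 0 := by
            refine sum_eq_zero fun σ hσ => ?_
            rw [hsupp ρ hρ σ (hY hσ) (fun h => hρY h.1), abs_zero]
          rw [h2]
          norm_num)
      have h5 : ∑ ρ ∈ Sc T, ∑ σ ∈ Sc T, (2 * Gp p (lev T ρ - lev T σ) * c (lev T ρ) (lev T σ) - c (lev T ρ) (lev T σ) ^ 2) =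
          ∑ u ∈ V, ∑ w ∈ V, (2 * Gp p (u - w) * c u w - c u w ^ 2) := by
        simp only [hsumY]
        symm
        refine (sum_subset hY fun ρ hρ hρY => ?_).trans (sum_congr rfl fun ρ hρ => ?_)
        · refine sum_eq_zero fun σ hσ => ?_
          rw [hsupp ρ hρ σ (hY hσ) (fun h => hρY h.1)]
          ring
        · refine sum_subset hY fun σ hσ hσY => ?_
          rw [hsupp ρ hρ σ hσ (fun h => hσY h.2)]
          ring
      rw [h5] at h
      linarith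

/-- **removing zeros** -/
theorem removal {ε : ℝ} (hε : 0 < ε) : ∃ T₀ : ℝ, 1 < T₀ ∧ ∀ T : ℝ, T₀ ≤ T → ∀ Y : Finset ℂ, Y ⊆ Sc T → ∀ B : ℝ, 0 ≤ B →
    (∀ (n : ℕ) (v : ℕ → ℝ), (∀ i < n, v i < v (i + 1)) → (∀ i ≤ n, ∃ ρ ∈ Y, v i = lev T ρ) →
      ∑ i ∈ range n, (1 - gg (Gam (v (i + 1) - v i))) ≤ B) →
    (2 - CMT - ε) * SN T - B ≤ ((Sc T \ Y).card : ℝ) := by
  classical
  obtain ⟨e, he⟩ : ∃ e, e = ε / 10 := ⟨_, rfl⟩
  have he0 : 0 < e := by rw [he]; positivity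
  obtain ⟨p, b, hp, hen, hcl, -⟩ := exists_weight4 he0
  obtain ⟨T₁, hT₁⟩ := NT_lower e he0
  obtain ⟨T₂, hT₂⟩ := NT_upper 1 one_pos
  obtain ⟨T₃, hT₃⟩ := Filter.eventually_atTop.1 (trace_up hp he0)
  obtain ⟨T₄, hT₄⟩ : ∃ T₄ : ℝ, ∀ T : ℝ, T₄ ≤ T → 1 ≤ e * SN T := by
    have h1 : Tendsto (fun T : ℝ => e * SN T) atTop atTop := by
      refine Tendsto.const_mul_atTop he0 ?_
      refine tendsto_atTop_mono' atTop ?_ (tendsto_id.atTop_div_const (r := 2 * Real.pi) (by positivity))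
      filter_upwards [eventually_ge_atTop (Real.exp 1)] with T hT
      have h2 : 0 < T := (Real.exp_pos 1).trans_le hT
      have h3 : 1 ≤ Real.log T := by rwa [Real.le_log_iff_exp_le h2]
      unfold SN
      show T / (2 * Real.pi) ≤ _
      have := Real.pi_pos
      gcongr
      nlinarith
    obtain ⟨T₄, h⟩ := Filter.eventually_atTop.1 (h1.eventually_ge_atTop 1)
    exact ⟨T₄, h⟩
  refine ⟨max 2 (max T₁ (max T₂ (max T₃ T₄))), lt_of_lt_of_le (by norm_num) (le_max_left _ _), fun T hT Y hY B hB hloss => ?_⟩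
  have g0 : 2 ≤ T := (le_max_left _ _).trans hT
  have hT' := (le_max_right _ _).trans hT
  have g1 : T₁ ≤ T := (le_max_left _ _).trans hT'
  have hT'' := (le_max_right _ _).trans hT'
  have g2 : T₂ ≤ T := (le_max_left _ _).trans hT''
  have hT''' := (le_max_right _ _).trans hT''
  have g3 : T₃ ≤ T := (le_max_left _ _).trans hT'''
  have g4 : T₄ ≤ T := (le_max_right _ _).trans hT'''
  have hT1 : 1 < T := by linarith
  have hS := SN_pos hT1
  have h1 : (1 - e) * SN T ≤ NT T := hT₁ T g1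
  have h2 : NT T ≤ (1 + 1) * SN T := hT₂ T g2
  have h3 := hT₃ T g3
  have h4 := hT₄ T g4
  have h5 : SN T * ∫ u, hh p u * ff T u ≤ SN T * (CMT + e + e) :=
    mul_le_mul_of_nonneg_left (h3.trans (by linarith)) hS.le
  have hcard : ((Sc T).card : ℝ) = (Sc T \ Y).card + Y.card := by
    have := card_sdiff_add_card_eq_card hY
    exact_mod_cast this.symm
  have hSc : ((Sc T).card : ℝ) ≤ NT T := by
    have h6 : Sc T ⊆ Zf T := fun ρ h => (mem_Sc.1 h).1
    calc (((Sc T).card : ℕ) : ℝ) ≤ ∑ ρ ∈ Sc T, (mult ρ : ℝ) := Pool.Agent.Helper49.RT.card_le_NT h6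
      _ ≤ NT T := sum_le_sum_of_subset_of_nonneg h6 fun _ _ _ => Nat.cast_nonneg _
  obtain ⟨i1, i2⟩ := ineq hT1 hp hY
  have e1 : ε = 10 * e := by rw [he]; ring
  rw [e1]
  rcases Nat.eq_zero_or_pos Y.card with h0 | h0
  · have h6 := i1 h0
    rw [h0] at hcard
    push_cast at hcard
    nlinarith
  · obtain ⟨n, hn⟩ : ∃ n, Y.card = n + 1 := ⟨Y.card - 1, by omega⟩
    obtain ⟨v, v1, v2, v3⟩ := i2 n hn
    have h7 := hloss n v v1 v2
    have h8 : ∑ i ∈ range n, (1 - gg (Gp p (v (i + 1) - v i))) ≤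
        ∑ i ∈ range n, (1 - gg (Gam (v (i + 1) - v i))) + n * (2 * e) := by
      have : (n : ℝ) * (2 * e) = ∑ i ∈ range n, 2 * e := by rw [sum_const, card_range, nsmul_eq_mul]
      rw [this, ← sum_add_distrib]
      refine sum_le_sum fun i _ => ?_
      have k1 := gg_lip (Gp p (v (i + 1) - v i)) (Gam (v (i + 1) - v i))
      have k2 := hcl (v (i + 1) - v i)
      linarith
    have h9 : ∑ i ∈ range n, (1 - gg (Gp p (v (i + 1) - v i))) = n - ∑ i ∈ range n, gg (Gp p (v (i + 1) - v i)) := by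
      rw [sum_sub_distrib, sum_const, card_range, nsmul_eq_mul, mul_one]
    have h10 : ((Y.card : ℕ) : ℝ) = n + 1 := by rw [hn]; push_cast; ring
    have h11 : (n : ℝ) ≤ 2 * SN T := by
      have : 0 ≤ ((Sc T \ Y).card : ℝ) := Nat.cast_nonneg _
      linarith
    have h12 : (n : ℝ) * (2 * e) ≤ 2 * SN T * (2 * e) := mul_le_mul_of_nonneg_right h11 (by positivity)
    rw [h10] at hcard
    nlinarith

end Pool.Agent.Helper63.WO
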