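import Pool.Agent.Helper57.WN.Long
import Pool.Agent.Helper63.WO.Removal
import Pool.Agent.Helper66.RT.Half

/-!
Long windows contain at least `3 - 2 CMT = 0.345` times the expected number of pairs of simple zeros on the line.
-/

set_option autoImplicit false

open Finset Filter Topology MeasureTheory
open Pool.Agent.Helper57.LH Pool.Agent.Helper57.PC Pool.Agent.Helper57.Zeta Pool.Agent.Helper57.FL
open Pool.Agent.Helper6.HM
open Pool.Agent.Helper4.PU (AT)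
open Pool.Agent.Helper66.RT (CMT CMT_ge3 CMT_le3)
open Pool.Agent.Helper57.WN (hat_sum_ev core aver hat)

namespace Pool.Agent.Helper63.WO

/-- the proportion of simple zeros on the line -/
lemma dens_ev63 {δ : ℝ} (hδ : 0 < δ) : ∀ᶠ T : ℝ in atTop, (2 - CMT - δ) * SN T ≤ ((Sc T).card : ℝ) := by
  obtain ⟨T₀, -, h⟩ := removal hδ
  filter_upwards [eventually_ge_atTop T₀] with T hT
  have h1 := h T hT ∅ (empty_subset _) 0 le_rfl (fun n v _ h2 => by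
    obtain ⟨ρ, hρ, -⟩ := h2 0 (Nat.zero_le n)
    exact absurd hρ (notMem_empty ρ))
  rw [sub_zero, sdiff_empty] at h1
  exact h1

/-- **long windows**: for every `η > 0` there are `L` and `κ > 0` such that for large `T` every window `(α, β)` with
`β - α ≥ L`, `0 ≤ α`, `β ≤ κ S` contains at least `(3 - 2 CMT - η) (β - α) S` of the differences of the simple zeros on the line -/
theorem long_windows345 {η : ℝ} (hη : 0 < η) : ∃ L κ T₀ : ℝ, 0 < κ ∧ ∀ T : ℝ, T₀ ≤ T → ∀ α β : ℝ, 0 ≤ α → α + L ≤ β →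
    β ≤ κ * (T * Real.log T / (2 * Real.pi)) →
    (3 - 2 * CMT - η) * (β - α) * (T * Real.log T / (2 * Real.pi)) ≤ (PO T α β).ncard := by
  classical
  obtain ⟨δ, hδd⟩ : ∃ δ : ℝ, δ = min η (1 / 3) / 21 := ⟨_, rfl⟩
  have hδ : 0 < δ := by rw [hδd]; positivity
  have hC1 := CMT_ge3
  have hC2 := CMT_le3
  have hδ1 : 21 * δ ≤ 1 / 3 := by rw [hδd]; linarith [min_le_right η (1 / 3)]
  have hδ2 : 21 * δ ≤ η := by rw [hδd]; linarith [min_le_left η (1 / 3)]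
  obtain ⟨D, hD, hX⟩ := hat_sum_ev
  obtain ⟨l, hl⟩ := exists_nat_ge (max 1 (D / δ ^ 2))
  have hl1 : (1:ℝ) ≤ l := (le_max_left _ _).trans hl
  have hl2 : D ≤ δ ^ 2 * l := by
    have := (le_max_right _ _).trans hl
    rw [div_le_iff₀ (by positivity)] at this
    linarith
  obtain ⟨T₁, hT₁⟩ := NT_lower (δ ^ 2) (by positivity)
  have hδ21 : δ ^ 2 ≤ 1 := by nlinarith
  obtain ⟨T₀, hT₀⟩ := eventually_atTop.1 ((dens_ev63 hδ).and ((hX l (δ ^ 2) (by positivity) hδ21).and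
    ((eventually_ge_atTop T₁).and ((eventually_ge_atTop (3:ℝ)).and (eventually_ge_atTop (10 * (l / δ ^ 2)))))))
  refine ⟨2 * l / δ, δ, T₀, hδ, fun T hT α β hα hαβ hβ => ?_⟩
  obtain ⟨g1, g2, g3, g4, g5⟩ := hT₀ T hT
  have hT1 : 1 < T := by linarith
  have hS : 0 < SN T := SN_pos hT1
  have hSN : T * Real.log T / (2 * Real.pi) = SN T := rfl
  rw [hSN] at hβ ⊢
  have g6 : (1 - δ ^ 2) * SN T ≤ NT T := hT₁ T g3
  have g7 : (l : ℝ) ≤ δ ^ 2 * SN T := by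
    have h12 : T / 10 ≤ SN T := by
      unfold SN
      have h1 : 1 ≤ Real.log T := by
        rw [Real.le_log_iff_exp_le (by linarith)]
        have := Real.exp_one_lt_d9
        linarith
      have hpi := Real.pi_pos
      have hpi4 := Real.pi_lt_four
      rw [div_le_div_iff₀ (by norm_num) (by positivity)]
      have h2 : T * 1 ≤ T * Real.log T := mul_le_mul_of_nonneg_left h1 (by linarith)
      nlinarith
    have h13 : l / δ ^ 2 ≤ SN T := by linarith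
    rw [div_le_iff₀ (by positivity)] at h13
    linarith
  have hl0 : (0:ℝ) < l := by linarith
  -- the values
  obtain ⟨X, hXd⟩ : ∃ X : ℝ, X = ∑ i ∈ Zf T, ∑ j ∈ Zf T, (mult i : ℝ) * mult j * hat l (lev T i - lev T j) := ⟨_, rfl⟩
  rw [← hXd] at g2
  have hX1 : X ≤ (1 + 2 * δ ^ 2) * ((l : ℝ) ^ 2 * SN T) := by
    have h1 : D * l ≤ δ ^ 2 * l * l := mul_le_mul_of_nonneg_right hl2 hl0.le
    have h2 : ((l : ℝ) ^ 2 * (1 + δ ^ 2) + D * l) * SN T ≤ ((l : ℝ) ^ 2 * (1 + δ ^ 2) + δ ^ 2 * l * l) * SN T :=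
      mul_le_mul_of_nonneg_right (by linarith) hS.le
    refine (g2.trans h2).trans (le_of_eq ?_)
    ring
  have hV1 : X - 2 * (l : ℝ) ^ 2 * NT T + (l : ℝ) ^ 2 * (SN T + l) ≤ 5 * δ ^ 2 * ((l : ℝ) ^ 2 * SN T) := by
    have h1 : 2 * (l : ℝ) ^ 2 * ((1 - δ ^ 2) * SN T) ≤ 2 * (l : ℝ) ^ 2 * NT T :=
      mul_le_mul_of_nonneg_left g6 (by positivity)
    have h2 : (l : ℝ) ^ 2 * l ≤ (l : ℝ) ^ 2 * (δ ^ 2 * SN T) := mul_le_mul_of_nonneg_left g7 (by positivity)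
    nlinarith
  have hrange : ∀ i ∈ Zf T, 0 ≤ lev T i ∧ lev T i ≤ SN T := by
    intro ρ hρ
    have h1 := (mem_Zf.1 hρ).2
    have hL : 0 < Real.log T := Real.log_pos hT1
    have hpi := Real.pi_pos
    unfold lev SN
    constructor
    · have := h1.1
      positivity
    · gcongr
      exact h1.2
  have hcore : ∀ a : ℝ, 0 ≤ a → a ≤ δ * SN T →
      (3 - 2 * CMT - 20 * δ) * ((l : ℝ) ^ 2 * SN T) ≤ ∑ i ∈ Sc T, ∑ j ∈ Sc T, hat l (lev T i - lev T j + a) := by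
    intro a ha haS
    have h1 := core (Zf T) (Sc T) (lev T) (fun ρ => (mult ρ : ℝ)) (l : ℝ) (SN T) (fun ρ hρ => (mem_Sc.1 hρ).1)
      (fun ρ hρ => by exact_mod_cast one_le_mult hρ) hl0 hrange hδ ha (haS.trans (by nlinarith))
    refine le_trans ?_ h1
    have hNT : ∑ i ∈ Zf T, (mult i : ℝ) = NT T := rfl
    rw [hNT, ← hXd]
    have h2 : 2 * (l : ℝ) ^ 2 * ((2 - CMT - δ) * SN T) ≤ 2 * (l : ℝ) ^ 2 * ((Sc T).card : ℝ) :=
      mul_le_mul_of_nonneg_left g1 (by positivity)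
    have h3 : 3 * (l : ℝ) ^ 2 * a ≤ 3 * (l : ℝ) ^ 2 * (δ * SN T) := mul_le_mul_of_nonneg_left haS (by positivity)
    have h4 : (1 + 1 / δ) * (X - 2 * (l : ℝ) ^ 2 * NT T + (l : ℝ) ^ 2 * (SN T + l)) ≤
        (1 + 1 / δ) * (5 * δ ^ 2 * ((l : ℝ) ^ 2 * SN T)) := mul_le_mul_of_nonneg_left hV1 (by positivity)
    have h5 : (1 + δ) * X ≤ (1 + δ) * ((1 + 2 * δ ^ 2) * ((l : ℝ) ^ 2 * SN T)) := mul_le_mul_of_nonneg_left hX1 (by positivity)
    have h6 : (1 + 1 / δ) * (5 * δ ^ 2 * ((l : ℝ) ^ 2 * SN T)) = (5 * δ ^ 2 + 5 * δ) * ((l : ℝ) ^ 2 * SN T) := by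
      field_simp
    rw [h6] at h4
    obtain ⟨Y, hY⟩ : ∃ Y : ℝ, Y = (l : ℝ) ^ 2 * SN T := ⟨_, rfl⟩
    have hY0 : 0 ≤ Y := by rw [hY]; positivity
    have e1 : 2 * (l : ℝ) ^ 2 * ((2 - CMT - δ) * SN T) = (4 - 2 * CMT - 2 * δ) * Y := by rw [hY]; ring
    have e2 : 3 * (l : ℝ) ^ 2 * (δ * SN T) = 3 * δ * Y := by rw [hY]; ring
    rw [e1] at h2
    rw [e2] at h3
    rw [← hY] at h4 h5 ⊢
    have h7 : (3 - 2 * CMT - 20 * δ) * Y ≤ (4 - 2 * CMT - 2 * δ) * Y - 3 * δ * Y - (5 * δ ^ 2 + 5 * δ) * Y - (1 + δ) * ((1 + 2 * δ ^ 2) * Y) := by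
      have h8 : 0 ≤ δ * (9 - 7 * δ - 2 * δ ^ 2) := mul_nonneg hδ.le (by linarith)
      have h9 : (4 - 2 * CMT - 2 * δ) * Y - 3 * δ * Y - (5 * δ ^ 2 + 5 * δ) * Y - (1 + δ) * ((1 + 2 * δ ^ 2) * Y) -
          (3 - 2 * CMT - 20 * δ) * Y = δ * (9 - 7 * δ - 2 * δ ^ 2) * Y := by ring
      have := mul_nonneg h8 hY0
      linarith
    linarith
  -- averaging
  have hαβ0 : 2 * l / δ ≤ β - α := by linarith
  rw [div_le_iff₀ hδ] at hαβ0
  have hαβ1 : 2 * (l : ℝ) ≤ β - α := by nlinarith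
  obtain ⟨M, hM⟩ : ∃ M : ℕ, M = ⌊(β - α) / l⌋₊ - 1 := ⟨_, rfl⟩
  have hf1 : ((⌊(β - α) / l⌋₊ : ℕ) : ℝ) ≤ (β - α) / l := Nat.floor_le (div_nonneg (by linarith) hl0.le)
  have hf2 : (β - α) / l < (⌊(β - α) / l⌋₊ : ℕ) + 1 := Nat.lt_floor_add_one _
  have hf3 : 1 ≤ ⌊(β - α) / l⌋₊ := Nat.le_floor (by
    rw [Nat.cast_one, le_div_iff₀ hl0]
    linarith)
  have hM1 : (M : ℝ) + 1 = (⌊(β - α) / l⌋₊ : ℕ) := by
    rw [hM]
    push_cast [hf3]
    ring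
  have hM2 : α + l * ((M : ℝ) + 1) ≤ β := by
    rw [hM1]
    rw [le_div_iff₀ hl0] at hf1
    linarith
  have hM3 : β - α ≤ l * M + 2 * l := by
    rw [← hM1, div_lt_iff₀ hl0] at hf2
    nlinarith
  have h1 := aver (Sc T) (lev T) (l := (l : ℝ)) (α := α) (β := β) hl0 M hM2 (R := (3 - 2 * CMT - 20 * δ) * ((l : ℝ) ^ 2 * SN T))
    (fun k hk => by
      rw [Finset.mem_range] at hk
      have hk' : (k : ℝ) + 1 ≤ M := by exact_mod_cast hk
      have hk0 : (0 : ℝ) ≤ k := Nat.cast_nonneg k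
      have h2 : (l : ℝ) * ((k : ℝ) + 1) ≤ l * (M + 1) := mul_le_mul_of_nonneg_left (by linarith) hl0.le
      exact hcore _ (by positivity) (by linarith))
  have h2 : (((Sc T ×ˢ Sc T).filter (fun p => α < lev T p.1 - lev T p.2 ∧ lev T p.1 - lev T p.2 < β)).card : ℝ) =
      (PO T α β).ncard := by
    rw [PO_eq, Set.ncard_coe_finset]
    norm_cast
    congr 1
    refine Finset.filter_congr fun p _ => ?_
    have : nd T p = lev T p.1 - lev T p.2 := by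
      unfold nd lev
      ring
    rw [this, Set.mem_Ioo]
  have h3 : (M : ℝ) * ((3 - 2 * CMT - 20 * δ) * ((l : ℝ) ^ 2 * SN T)) ≤ l * ((PO T α β).ncard : ℝ) := by
    rw [← h2]
    convert h1 using 4
  have h4 : (M : ℝ) * l * ((3 - 2 * CMT - 20 * δ) * SN T) ≤ (PO T α β).ncard := by
    have h5 : (M : ℝ) * ((3 - 2 * CMT - 20 * δ) * ((l : ℝ) ^ 2 * SN T)) = l * ((M : ℝ) * l * ((3 - 2 * CMT - 20 * δ) * SN T)) := by ring
    rw [h5] at h3
    exact le_of_mul_le_mul_left h3 hl0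
  refine le_trans ?_ h4
  have h5 : (1 - δ) * (β - α) ≤ (M : ℝ) * l := by nlinarith
  have h6 : 0 ≤ (3 - 2 * CMT - 20 * δ) * SN T := mul_nonneg (by linarith) hS.le
  have h7 := mul_le_mul_of_nonneg_right h5 h6
  refine le_trans ?_ h7
  have hab : 0 ≤ (β - α) * SN T := mul_nonneg (by linarith) hS.le
  have h8 : (3 - 2 * CMT - η) ≤ (1 - δ) * (3 - 2 * CMT - 20 * δ) := by nlinarith
  calc (3 - 2 * CMT - η) * (β - α) * SN T = (3 - 2 * CMT - η) * ((β - α) * SN T) := by ring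
    _ ≤ (1 - δ) * (3 - 2 * CMT - 20 * δ) * ((β - α) * SN T) := mul_le_mul_of_nonneg_right h8 hab
    _ = (1 - δ) * (β - α) * ((3 - 2 * CMT - 20 * δ) * SN T) := by ring

end Pool.Agent.Helper63.WO
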