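import Pool.Agent.Helper63.WO.Removal
import Pool.Agent.Helper54.WO.Gaps

/-!
# Windows off zero: pairs of simple zeros on the line in one window
-/

set_option autoImplicit false

open Finset Filter Topology MeasureTheory

namespace Pool.Agent.Helper63.WO

open Pool.Agent.Helper57.LH Pool.Agent.Helper57.PC Pool.Agent.Helper57.Zeta
open Pool.Agent.Helper6.HM (lev Sc mem_Sc lev_inj)
open Pool.Agent.Helper66.RT

open Classical in
/-- pairs of simple zeros on the line with scaled difference in `[α, β)` -/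
noncomputable def PW (T α β : ℝ) : Finset (ℂ × ℂ) :=
  (Sc T ×ˢ Sc T).filter (fun q => α ≤ lev T q.1 - lev T q.2 ∧ lev T q.1 - lev T q.2 < β)

lemma mem_PW {T α β : ℝ} {q : ℂ × ℂ} : q ∈ PW T α β ↔
    (q.1 ∈ Sc T ∧ q.2 ∈ Sc T) ∧ α ≤ lev T q.1 - lev T q.2 ∧ lev T q.1 - lev T q.2 < β := by
  unfold PW
  rw [mem_filter, mem_product]

lemma lev_range {T : ℝ} (hT : 1 < T) {ρ : ℂ} (hρ : ρ ∈ Sc T) : 0 ≤ lev T ρ ∧ lev T ρ ≤ SN T := by
  have h1 := (mem_Zf.1 (mem_Sc.1 hρ).1).2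
  have hlog : 0 < Real.log T := Real.log_pos hT
  have hpi := Real.pi_pos
  unfold lev SN
  constructor
  · have := h1.1
    positivity
  · gcongr
    exact h1.2

/-- the removal lemma for a window: `Y` has no difference in `[α, β)` -/
theorem removal_window {ε : ℝ} (hε : 0 < ε) : ∃ T₀ : ℝ, 1 < T₀ ∧ ∀ T : ℝ, T₀ ≤ T → ∀ α β B : ℝ, 0 ≤ B →
    (∀ (n : ℕ) (v : ℕ → ℝ), (∀ i < n, v i < v (i + 1)) → 0 ≤ v 0 → v n ≤ SN T →
      (∀ i ≤ n, ∀ j ≤ n, ¬ (α ≤ v j - v i ∧ v j - v i < β)) →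
      ∑ i ∈ range n, (1 - gg (Gam (v (i + 1) - v i))) ≤ B) →
    (2 - CMT - ε) * SN T - B ≤ ((PW T α β).card : ℝ) := by
  classical
  obtain ⟨T₀, hT₀, h⟩ := removal hε
  refine ⟨T₀, hT₀, fun T hT α β B hB hloss => ?_⟩
  have hT1 : 1 < T := hT₀.trans_le hT
  obtain ⟨R, hR⟩ : ∃ R, R = (Sc T).filter (fun ρ => ∃ σ ∈ Sc T, α ≤ lev T ρ - lev T σ ∧ lev T ρ - lev T σ < β) := ⟨_, rfl⟩
  have hRs : R ⊆ Sc T := by rw [hR]; exact filter_subset _ _
  have h1 := h T hT (Sc T \ R) sdiff_subset B hB (by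
    intro n v v1 v2
    refine hloss n v v1 ?_ ?_ ?_
    · obtain ⟨ρ, hρ, e⟩ := v2 0 (Nat.zero_le _)
      rw [e]
      exact (lev_range hT1 (sdiff_subset hρ)).1
    · obtain ⟨ρ, hρ, e⟩ := v2 n le_rfl
      rw [e]
      exact (lev_range hT1 (sdiff_subset hρ)).2
    · intro i hi j hj hij
      obtain ⟨ρ, hρ, e⟩ := v2 j hj
      obtain ⟨σ, hσ, e'⟩ := v2 i hi
      rw [e, e'] at hij
      refine (mem_sdiff.1 hρ).2 ?_
      rw [hR, mem_filter]
      exact ⟨sdiff_subset hρ, σ, sdiff_subset hσ, hij⟩)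
  refine h1.trans ?_
  rw [Finset.sdiff_sdiff_eq_self hRs]
  have h2 : R ⊆ (PW T α β).image Prod.fst := by
    intro ρ hρ
    rw [hR, mem_filter] at hρ
    obtain ⟨h3, σ, h4, h5⟩ := hρ
    rw [mem_image]
    exact ⟨(ρ, σ), mem_PW.2 ⟨⟨h3, h4⟩, h5⟩, rfl⟩
  exact_mod_cast (card_le_card h2).trans card_image_le

/-- **one window** `[a, a + L)` -/
theorem window {L lam mu : ℝ} (hL : 0 < L) (hlam : 0 ≤ lam) (hmu : 0 ≤ mu)
    (h1 : ∀ d, 0 < d → d ≤ L → 1 - gg (Gam d) ≤ (lam + 2 * mu) * d)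
    (h2 : ∀ d, L < d → 1 - gg (Gam d) ≤ lam * d + mu * L) {ε : ℝ} (hε : 0 < ε) :
    ∃ T₀ : ℝ, 1 < T₀ ∧ ∀ T : ℝ, T₀ ≤ T → ∀ a : ℝ, 0 < a →
      (2 - CMT - ε - (lam + mu)) * SN T - mu * a ≤ ((PW T a (a + L)).card : ℝ) := by
  obtain ⟨T₀, hT₀, h⟩ := removal_window hε
  refine ⟨T₀, hT₀, fun T hT a ha => ?_⟩
  have hS := SN_pos (hT₀.trans_le hT)
  have := h T hT a (a + L) ((lam + mu) * SN T + mu * a) (by positivity) (fun n v v1 v0 vn vf =>
    gapsum v1 ha hL hlam hmu v0 vn vf (h := fun d => 1 - gg (Gam d)) h1 h2)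
  linarith

/-- **a window near zero** `[α, β)` -/
theorem window_near {α β κ : ℝ} (hκ : 0 ≤ κ)
    (h1 : ∀ d, 0 < d → d < α → 1 - gg (Gam d) ≤ κ * d)
    (h2 : ∀ d, β ≤ d → 1 - gg (Gam d) ≤ κ * d) {ε : ℝ} (hε : 0 < ε) :
    ∃ T₀ : ℝ, 1 < T₀ ∧ ∀ T : ℝ, T₀ ≤ T →
      (2 - CMT - ε - κ) * SN T ≤ ((PW T α β).card : ℝ) := by
  obtain ⟨T₀, hT₀, h⟩ := removal_window hε
  refine ⟨T₀, hT₀, fun T hT => ?_⟩
  have hS := SN_pos (hT₀.trans_le hT)
  have := h T hT α β (κ * SN T) (by positivity) (fun n v v1 v0 vn vf => by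
    calc ∑ i ∈ range n, (1 - gg (Gam (v (i + 1) - v i))) ≤ ∑ i ∈ range n, κ * (v (i + 1) - v i) := by
          refine sum_le_sum fun i hi => ?_
          rw [mem_range] at hi
          have h3 := v1 i hi
          have h4 := vf i hi.le (i + 1) hi
          rcases lt_or_ge (v (i + 1) - v i) α with h5 | h5
          · exact h1 _ (by linarith) h5
          · refine h2 _ ?_
            by_contra h6
            push Not at h6
            exact h4 ⟨h5, h6⟩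
      _ = κ * (v n - v 0) := by rw [← mul_sum, sum_range_sub]
      _ ≤ κ * SN T := mul_le_mul_of_nonneg_left (by linarith) hκ)
  linarith

/-- long windows -/
theorem long {T a L m : ℝ} (hL : 0 < L) (k : ℕ)
    (h : ∀ j : ℕ, j < k → m ≤ ((PW T (a + j * L) (a + j * L + L)).card : ℝ)) :
    k * m ≤ ((PW T a (a + k * L)).card : ℝ) := by
  classical
  induction k with
  | zero => simp
  | succ k ih =>
    have h1 := ih fun j hj => h j (hj.trans (Nat.lt_succ_self k))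
    have h2 := h k (Nat.lt_succ_self k)
    have hd : Disjoint (PW T a (a + k * L)) (PW T (a + k * L) (a + k * L + L)) := by
      rw [disjoint_left]
      intro q hq hq'
      have h3 := (mem_PW.1 hq).2.2
      have h4 := (mem_PW.1 hq').2.1
      linarith
    have hk : (0:ℝ) ≤ k * L := by positivity
    have hs : PW T a (a + k * L) ∪ PW T (a + k * L) (a + k * L + L) ⊆ PW T a (a + ((k + 1 : ℕ) : ℝ) * L) := by
      intro q hq
      rw [mem_union] at hq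
      push_cast
      rcases hq with hq | hq
      · obtain ⟨h3, h4, h5⟩ := mem_PW.1 hq
        exact mem_PW.2 ⟨h3, h4, by linarith⟩
      · obtain ⟨h3, h4, h5⟩ := mem_PW.1 hq
        exact mem_PW.2 ⟨h3, by linarith, by linarith⟩
    have h5 := card_le_card hs
    rw [card_union_of_disjoint hd] at h5
    have h6 : ((PW T a (a + k * L)).card : ℝ) + (PW T (a + k * L) (a + k * L + L)).card ≤
        (PW T a (a + ((k + 1 : ℕ) : ℝ) * L)).card := by exact_mod_cast h5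
    push_cast at h6 ⊢
    linarith

/-- **every window** -/
theorem many {L lam mu : ℝ} (hL : 0 < L) (hlam : 0 ≤ lam) (hmu : 0 ≤ mu)
    (h1 : ∀ d, 0 < d → d ≤ L → 1 - gg (Gam d) ≤ (lam + 2 * mu) * d)
    (h2 : ∀ d, L < d → 1 - gg (Gam d) ≤ lam * d + mu * L) {ε : ℝ} (hε : 0 < ε) :
    ∃ T₀ : ℝ, 1 < T₀ ∧ ∀ T : ℝ, T₀ ≤ T → ∀ a M : ℝ, 0 < a → ∀ k : ℕ, a + k * L ≤ M * SN T →
      k * ((2 - CMT - ε - (lam + mu) - mu * M) * SN T) ≤ ((PW T a (a + k * L)).card : ℝ) := by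
  obtain ⟨T₀, hT₀, h⟩ := window hL hlam hmu h1 h2 hε
  refine ⟨T₀, hT₀, fun T hT a M ha k hk => ?_⟩
  refine long hL k fun j hj => ?_
  have h3 := h T hT (a + j * L) (by positivity)
  refine le_trans ?_ h3
  have h4 : a + j * L ≤ M * SN T := by
    refine le_trans ?_ hk
    have : (j : ℝ) * L ≤ k * L := mul_le_mul_of_nonneg_right (by exact_mod_cast hj.le) hL.le
    linarith
  have h5 := mul_le_mul_of_nonneg_left h4 hmu
  linarith

end Pool.Agent.Helper63.WO
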